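import Mathlib

/-!
# Modified EGZ constants: the conjectured bound fails for all odd `n ≥ 3` and all `d ≥ 3`

For all odd `n ≥ 3` and all `d ≥ 3` there is a zero-sum sequence over `(ℤ / n ℤ) ^ d` of length at least
`2 ^ (d - 3) (8 n - 7) ≥ 2 ^ d n - ℓ + 1` without zero-sum subsequence of length `n`.

In dimension three the sequence consists of nine distinct elements (a translate of the nine
vectors `vec p` below), each with a multiplicity of at most `n - 1`. The dimension is raised by
taking the product with `{1 / 2, - 1 / 2}`.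
-/

set_option autoImplicit false

namespace Pool.Agent.Results.MP_b34cfe_co.OddModuli

/-- The modified EGZ constant `s'_m(G)`: the least `L` such that every zero-sum sequence (multiset) `S` over
`G` of length at least `L` has a zero-sum subsequence of length exactly `m`. -/
noncomputable def modEGZ (G : Type) [AddCommGroup G] (m : ℕ) : ℕ :=
  sInf {L : ℕ | ∀ S : Multiset G, S.sum = 0 → L ≤ Multiset.card S →
    ∃ T ≤ S, Multiset.card T = m ∧ T.sum = 0}

/-- `ℓ(n, d)`: the least integer `ℓ ≥ 2 ^ d` which does not divide `n`. -/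
noncomputable def ell (n d : ℕ) : ℕ := sInf {l : ℕ | 2 ^ d ≤ l ∧ ¬ l ∣ n}

theorem exists_of_le_map {α β : Type*} {f : α → β} {S : Multiset α} {T : Multiset β}
    (h : T ≤ S.map f) : ∃ U ≤ S, T = U.map f := by
  induction S using Quotient.inductionOn with
  | h s =>
    induction T using Quotient.inductionOn with
    | h t =>
      have h' : t.Subperm (s.map f) := h
      obtain ⟨l, hl1, hl2⟩ := h'
      obtain ⟨u, hu1, rfl⟩ := List.sublist_map_iff.1 hl2
      refine ⟨(u : Multiset α), Multiset.coe_le.2 hu1.subperm, ?_⟩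
      exact (Multiset.coe_eq_coe.2 hl1).symm

theorem exists_of_le_add {α : Type*} {A B T : Multiset α} (h : T ≤ A + B) :
    ∃ T1 ≤ A, ∃ T2 ≤ B, T = T1 + T2 := by
  classical
  refine ⟨T ∩ A, Multiset.inter_le_right, T - A, ?_, ?_⟩
  · rw [tsub_le_iff_left]
    exact h
  · rw [add_comm, Multiset.sub_add_inter]

/-- `S` is a zero-sum sequence without zero-sum subsequence of length `n` -/
def Free (n d : ℕ) (S : Multiset (Fin d → ZMod n)) : Prop :=
  S.sum = 0 ∧ ∀ T ≤ S, Multiset.card T = n → T.sum ≠ 0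

theorem sum_cons_map {n d : ℕ} (a : ZMod n) (S : Multiset (Fin d → ZMod n)) :
    (S.map (fun v => (Fin.cons a v : Fin (d + 1) → ZMod n))).sum =
      Fin.cons ((Multiset.card S : ZMod n) * a) S.sum := by
  induction S using Multiset.induction_on with
  | empty =>
    simp only [Multiset.map_zero, Multiset.sum_zero, Multiset.card_zero, Nat.cast_zero, zero_mul]
    ext i
    refine Fin.cases ?_ (fun j => ?_) i <;> simp
  | cons v S ih =>
    rw [Multiset.map_cons, Multiset.sum_cons, ih, Multiset.card_cons, Multiset.sum_cons]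
    ext i
    refine Fin.cases ?_ (fun j => ?_) i
    · simp only [Pi.add_apply, Fin.cons_zero]
      push_cast
      ring
    · simp only [Pi.add_apply, Fin.cons_succ]

/-- raising the dimension -/
theorem step {n d : ℕ} (hn : Odd n) (hn3 : 3 ≤ n) {S : Multiset (Fin d → ZMod n)} (hS : Free n d S) :
    ∃ S' : Multiset (Fin (d + 1) → ZMod n), Free n (d + 1) S' ∧
      Multiset.card S' = 2 * Multiset.card S := by
  obtain ⟨k, hk⟩ := hn
  set h : ZMod n := (((k + 1 : ℕ)) : ZMod n) with hh
  have h2 : 2 * h = 1 := by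
    have : ((2 * (k + 1) : ℕ) : ZMod n) = 1 := by
      rw [show 2 * (k + 1) = n + 1 by omega]
      push_cast
      simp
    rw [← this, hh]
    push_cast
    ring
  let f : (Fin d → ZMod n) → (Fin (d + 1) → ZMod n) := fun v => Fin.cons h v
  let g : (Fin d → ZMod n) → (Fin (d + 1) → ZMod n) := fun v => Fin.cons (-h) v
  refine ⟨S.map f + S.map g, ⟨?_, ?_⟩, ?_⟩
  · rw [Multiset.sum_add, sum_cons_map, sum_cons_map, hS.1]
    ext i
    refine Fin.cases ?_ (fun j => ?_) i
    · simp only [Pi.add_apply, Fin.cons_zero, Pi.zero_apply]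
      ring
    · simp
  · intro T hT hc hsum
    obtain ⟨T1, hT1, T2, hT2, rfl⟩ := exists_of_le_add hT
    obtain ⟨U1, hU1, rfl⟩ := exists_of_le_map hT1
    obtain ⟨U2, hU2, rfl⟩ := exists_of_le_map hT2
    rw [Multiset.card_add, Multiset.card_map, Multiset.card_map] at hc
    rw [Multiset.sum_add, sum_cons_map, sum_cons_map] at hsum
    have e0 := congrFun hsum 0
    simp only [Pi.add_apply, Fin.cons_zero, Pi.zero_apply] at e0
    have e1 : U1.sum + U2.sum = 0 := by
      ext j
      have := congrFun hsum j.succ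
      simpa using this
    have e2 : ((Multiset.card U1 : ℤ) - Multiset.card U2 : ℤ) = (0 : ZMod n) := by
      have : ((Multiset.card U1 : ZMod n) - Multiset.card U2) * (2 * h) = 0 := by
        linear_combination 2 * e0
      rw [h2, mul_one] at this
      exact_mod_cast this
    have e3 : (n : ℤ) ∣ (Multiset.card U1 : ℤ) - Multiset.card U2 := by
      rw [← ZMod.intCast_zmod_eq_zero_iff_dvd]
      exact_mod_cast e2
    obtain ⟨c, hc'⟩ := e3
    have hc1 : c = 1 ∨ c = -1 ∨ c = 0 := by
      have h1 : c < 2 := by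
        by_contra hcon
        have : (n : ℤ) * 2 ≤ n * c := mul_le_mul_of_nonneg_left (by omega) (by omega)
        omega
      have h2 : -2 < c := by
        by_contra hcon
        have : (n : ℤ) * c ≤ n * (-2) := mul_le_mul_of_nonneg_left (by omega) (by omega)
        omega
      omega
    rcases hc1 with rfl | rfl | rfl
    · have h3 : Multiset.card U2 = 0 := by omega
      rw [Multiset.card_eq_zero] at h3
      subst h3
      exact hS.2 U1 hU1 (by simpa using hc) (by simpa using e1)
    · have h3 : Multiset.card U1 = 0 := by omega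
      rw [Multiset.card_eq_zero] at h3
      subst h3
      exact hS.2 U2 hU2 (by simpa using hc) (by simpa using e1)
    · omega
  · rw [Multiset.card_add, Multiset.card_map, Multiset.card_map]
    ring

/-- the nine vectors in dimension three -/
def vec : Fin 9 → Fin 3 → ℕ :=
  ![![0, 0, 0], ![0, 0, 2], ![0, 2, 0], ![0, 2, 2], ![1, 0, 1], ![1, 1, 0], ![1, 1, 2], ![1, 2, 1],
    ![2, 1, 1]]

/-- the index multiset -/
def idx (m : Fin 9 → ℕ) : Multiset (Fin 9) := ∑ p, Multiset.replicate (m p) p

theorem count_idx (m : Fin 9 → ℕ) (q : Fin 9) : (idx m).count q = m q := by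
  unfold idx
  rw [Multiset.count_sum']
  simp only [Multiset.count_replicate]
  simp

theorem sum_map_eq {M : Type*} [AddCommMonoid M] (U : Multiset (Fin 9)) (f : Fin 9 → M) :
    (U.map f).sum = ∑ p, U.count p • f p := by
  induction U using Multiset.induction_on with
  | empty => simp
  | cons a U ih =>
    rw [Multiset.map_cons, Multiset.sum_cons, ih]
    simp only [Multiset.count_cons, add_smul, Finset.sum_add_distrib]
    rw [add_comm]
    congr 1
    simp

theorem card_eq (U : Multiset (Fin 9)) : Multiset.card U = ∑ p, U.count p := by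
  have h := sum_map_eq U (fun _ => (1 : ℕ))
  simp only [Multiset.map_const', Multiset.sum_replicate, smul_eq_mul, mul_one] at h
  exact h

/-- The elements of the sequence in dimension three. -/
def pt (n : ℕ) (t : Fin 3 → ZMod n) (p : Fin 9) : Fin 3 → ZMod n := fun j => (vec p j : ZMod n) + t j

theorem combinatorial (n : ℕ) (hn : Odd n) (a : Fin 9 → ℕ) (ha : ∀ p, a p + 1 ≤ n)
    (hsum : ∑ p, a p = n) (hdvd : ∀ j, n ∣ ∑ p, a p * vec p j) : False := by
  obtain ⟨k, hk⟩ := hn
  have hb : ∀ j, ∃ c, c ≤ 2 ∧ ∑ p, a p * vec p j = n * c := by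
    intro j
    obtain ⟨c, hc⟩ := hdvd j
    refine ⟨c, ?_, hc⟩
    have h1 : ∑ p, a p * vec p j ≤ ∑ p, a p * 2 := by
      apply Finset.sum_le_sum
      intro p _
      apply Nat.mul_le_mul_left
      exact (by decide : ∀ (p : Fin 9) (j : Fin 3), vec p j ≤ 2) p j
    rw [← Finset.sum_mul, hsum, hc] at h1
    have hpos : 0 < n := by omega
    exact Nat.le_of_mul_le_mul_left h1 hpos
  obtain ⟨c0, hc0, h0⟩ := hb 0
  obtain ⟨c1, hc1, h1⟩ := hb 1
  obtain ⟨c2, hc2, h2⟩ := hb 2
  have ha0 := ha 0
  have ha1 := ha 1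
  have ha2 := ha 2
  have ha3 := ha 3
  have ha4 := ha 4
  have ha5 := ha 5
  have ha6 := ha 6
  have ha7 := ha 7
  have ha8 := ha 8
  simp only [Fin.sum_univ_succ, Fin.sum_univ_zero, vec] at h0 h1 h2 hsum
  simp [Matrix.cons_val] at h0 h1 h2 hsum
  generalize a 0 = x0 at *
  generalize a 1 = x1 at *
  generalize a 2 = x2 at *
  generalize a 3 = x3 at *
  generalize a 4 = x4 at *
  generalize a 5 = x5 at *
  generalize a 6 = x6 at *
  generalize a 7 = x7 at *
  generalize a 8 = x8 at *
  have hc0' : c0 = 0 ∨ c0 = 1 ∨ c0 = 2 := by omega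
  have hc1' : c1 = 0 ∨ c1 = 1 ∨ c1 = 2 := by omega
  have hc2' : c2 = 0 ∨ c2 = 1 ∨ c2 = 2 := by omega
  rcases hc0' with rfl | rfl | rfl <;> rcases hc1' with rfl | rfl | rfl <;>
    rcases hc2' with rfl | rfl | rfl <;> omega

theorem free_of {n : ℕ} (hn : Odd n) (m : Fin 9 → ℕ) (hm : ∀ p, m p + 1 ≤ n) (t : Fin 3 → ZMod n)
    (h0 : ∑ p, m p • pt n t p = 0) : Free n 3 ((idx m).map (pt n t)) := by
  refine ⟨?_, ?_⟩
  · rw [sum_map_eq]
    simp only [count_idx]
    exact h0
  · intro T hT hc hsum
    obtain ⟨U, hU, rfl⟩ := exists_of_le_map hT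
    rw [Multiset.card_map] at hc
    rw [sum_map_eq] at hsum
    refine combinatorial n hn (fun p => U.count p) ?_ ?_ ?_
    · intro p
      have h1 := Multiset.le_iff_count.1 hU p
      rw [count_idx] at h1
      have := hm p
      omega
    · rw [← card_eq]
      exact hc
    · intro j
      have h1 := congrFun hsum j
      rw [Finset.sum_apply] at h1
      have h2 : ∀ c, (Multiset.count c U • pt n t c) j =
          (Multiset.count c U : ZMod n) * (vec c j : ZMod n) + (Multiset.count c U : ZMod n) * t j := by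
        intro c
        rw [Pi.smul_apply, nsmul_eq_mul, pt, mul_add]
      simp only [h2, Finset.sum_add_distrib, Pi.zero_apply] at h1
      rw [← Finset.sum_mul, ← Nat.cast_sum, ← card_eq, hc, ZMod.natCast_self, zero_mul, add_zero] at h1
      rw [← ZMod.natCast_eq_zero_iff]
      rw [← h1]
      push_cast
      rfl

theorem base {n : ℕ} (hn : Odd n) (hn3 : 3 ≤ n) :
    ∃ S : Multiset (Fin 3 → ZMod n), Free n 3 S ∧ 8 * n ≤ Multiset.card S + 7 := by
  have hcard : ∀ (m : Fin 9 → ℕ) (t : Fin 3 → ZMod n),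
      Multiset.card ((idx m).map (pt n t)) = ∑ p, m p := by
    intro m t
    rw [Multiset.card_map, card_eq]
    simp only [count_idx]
  rcases Nat.lt_or_ge n 9 with h | h
  · have h' : n = 3 ∨ n = 5 ∨ n = 7 := by
      obtain ⟨k, hk⟩ := hn
      omega
    rcases h' with rfl | rfl | rfl
    · refine ⟨_, free_of hn (fun _ => 2) (fun _ => le_rfl) 0 (by decide), ?_⟩
      rw [hcard]
      decide
    · refine ⟨_, free_of hn (fun _ => 4) (fun _ => le_rfl) ![1, 4, 4] (by decide), ?_⟩
      rw [hcard]
      decide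
    · refine ⟨_, free_of hn (fun _ => 6) (fun _ => le_rfl) ![4, 6, 6] (by decide), ?_⟩
      rw [hcard]
      decide
  · obtain ⟨k, hk⟩ := hn
    set h : ZMod n := (((k + 1 : ℕ)) : ZMod n) with hh
    have h2 : 2 * h = 1 := by
      have : ((2 * (k + 1) : ℕ) : ZMod n) = 1 := by
        rw [show 2 * (k + 1) = n + 1 by omega]
        push_cast
        simp
      rw [← this, hh]
      push_cast
      ring
    have h16 : 16 * h ^ 4 = 1 := by
      linear_combination (8 * h ^ 3 + 4 * h ^ 2 + 2 * h + 1) * h2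
    have hn1 : ((n - 1 : ℕ) : ZMod n) = -1 := by
      rw [Nat.cast_sub (by omega)]
      simp
    have hn8 : ((n - 8 : ℕ) : ZMod n) = -8 := by
      rw [Nat.cast_sub (by omega)]
      simp
    refine ⟨_, free_of ⟨k, hk⟩ ![n - 8, n - 1, n - 1, n - 1, n - 1, n - 1, n - 1, n - 1, n - 1] ?_
      ![-(6 * h ^ 4), -(9 * h ^ 4), -(9 * h ^ 4)] ?_, ?_⟩
    · intro p
      fin_cases p <;> simp <;> omega
    · ext j
      rw [Finset.sum_apply]
      have h3 : ∀ (m : ℕ) (t : Fin 3 → ZMod n) (c : Fin 9), (m • pt n t c) j =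
          (m : ZMod n) * ((vec c j : ZMod n) + t j) := by
        intro m t c
        rw [Pi.smul_apply, nsmul_eq_mul, pt]
      simp only [h3, Pi.zero_apply, Fin.sum_univ_succ, Fin.sum_univ_zero, vec]
      fin_cases j
      · simp [Matrix.cons_val, hn1, hn8]
        linear_combination 6 * h16
      · simp [Matrix.cons_val, hn1, hn8]
        linear_combination 9 * h16
      · simp [Matrix.cons_val, hn1, hn8]
        linear_combination 9 * h16
    · rw [hcard]
      simp only [Fin.sum_univ_succ, Fin.sum_univ_zero]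
      simp [Matrix.cons_val]
      omega

theorem main_seq {n : ℕ} (hn : Odd n) (hn3 : 3 ≤ n) (e : ℕ) :
    ∃ S : Multiset (Fin (e + 3) → ZMod n), Free n (e + 3) S ∧
      2 ^ e * (8 * n) ≤ Multiset.card S + 2 ^ e * 7 := by
  induction e with
  | zero =>
    obtain ⟨S, h1, h2⟩ := base hn hn3
    exact ⟨S, h1, by simpa using h2⟩
  | succ e ih =>
    obtain ⟨S, h1, h2⟩ := ih
    obtain ⟨S', h3, h4⟩ := step hn hn3 h1
    refine ⟨S', h3, ?_⟩
    rw [h4, pow_succ]
    nlinarith

theorem nonempty_set (G : Type) [AddCommGroup G] [Finite G] (n : ℕ) (hn : 0 < n)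
    (hG : ∀ g : G, n • g = 0) :
    {L : ℕ | ∀ S : Multiset G, S.sum = 0 → L ≤ Multiset.card S →
      ∃ T ≤ S, Multiset.card T = n ∧ T.sum = 0}.Nonempty := by
  classical
  have := Fintype.ofFinite G
  refine ⟨Fintype.card G * n, fun S _ hS => ?_⟩
  have h1 : ∃ g : G, n ≤ S.count g := by
    by_contra hcon
    push Not at hcon
    have h2 : Multiset.card S = ∑ g : G, S.count g := by
      rw [← Multiset.toFinset_sum_count_eq]
      apply Finset.sum_subset (Finset.subset_univ _)
      intro x _ hx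
      rw [Multiset.mem_toFinset] at hx
      exact Multiset.count_eq_zero_of_notMem hx
    have h3 : ∑ g : G, S.count g ≤ ∑ _g : G, (n - 1) :=
      Finset.sum_le_sum fun g _ => by have := hcon g; omega
    rw [Finset.sum_const, Finset.card_univ, smul_eq_mul] at h3
    have h4 : 0 < Fintype.card G := Fintype.card_pos
    have h5 : Fintype.card G * n ≤ Fintype.card G * (n - 1) := by omega
    have h6 := Nat.le_of_mul_le_mul_left h5 h4
    omega
  obtain ⟨g, hg⟩ := h1
  refine ⟨Multiset.replicate n g, Multiset.le_count_iff_replicate_le.1 hg, by simp, ?_⟩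
  rw [Multiset.sum_replicate]
  exact hG g

theorem ell_ge {n : ℕ} (hn : 0 < n) (d : ℕ) : 2 ^ d ≤ ell n d := by
  have h : {l : ℕ | 2 ^ d ≤ l ∧ ¬ l ∣ n}.Nonempty := by
    refine ⟨2 ^ d + n, by omega, fun hd => ?_⟩
    have h1 := Nat.le_of_dvd hn hd
    have h2 : 0 < 2 ^ d := by positivity
    omega
  exact (Nat.sInf_mem h).1

/-- The inequality `s'_{nt}((ℤ/nℤ)^d) ≤ (t + 2^d - 1) n - ℓ + 1`. -/
def Conjectured (n t d : ℕ) : Prop :=
  (modEGZ (Fin d → ZMod n) (n * t) : ℤ) ≤ ((t : ℤ) + 2 ^ d - 1) * n - ell n d + 1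

/-- For all odd `n ≥ 3` and all `d ≥ 3` the conjectured inequality fails for `t = 1`; in particular it does
not hold for all positive integers `n`, `t`, `d`. -/
theorem result : (∀ n d : ℕ, Odd n → 3 ≤ n → 3 ≤ d → ¬ Conjectured n 1 d) ∧
    ¬ ∀ n t d : ℕ, 0 < n → 0 < t → 0 < d → Conjectured n t d := by
  have key : ∀ n d : ℕ, Odd n → 3 ≤ n → 3 ≤ d → ¬ Conjectured n 1 d := by
    intro n d hn hn3 hd hcon
    obtain ⟨e, rfl⟩ : ∃ e, d = e + 3 := ⟨d - 3, by omega⟩
    obtain ⟨S, hS, hcard⟩ := main_seq hn hn3 e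
    have hneZ : NeZero n := ⟨by omega⟩
    have hne := nonempty_set (Fin (e + 3) → ZMod n) n (by omega) (fun g => by
      ext i
      simp)
    have hmem := Nat.sInf_mem hne
    have h1 : Multiset.card S < modEGZ (Fin (e + 3) → ZMod n) (n * 1) := by
      rw [mul_one]
      by_contra hlt
      push Not at hlt
      obtain ⟨T, hT1, hT2, hT3⟩ := hmem S hS.1 hlt
      exact hS.2 T hT1 hT2 hT3
    have h2 := ell_ge (n := n) (by omega) (e + 3)
    unfold Conjectured at hcon
    have h3 : ((2 : ℤ) ^ e * (8 * n)) ≤ (Multiset.card S : ℤ) + 2 ^ e * 7 := by exact_mod_cast hcard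
    have h4 : (2 : ℤ) ^ (e + 3) ≤ ell n (e + 3) := by exact_mod_cast h2
    have h5 : (Multiset.card S : ℤ) < modEGZ (Fin (e + 3) → ZMod n) (n * 1) := by exact_mod_cast h1
    have h6 : (1 : ℤ) ≤ 2 ^ e := one_le_pow₀ (by norm_num)
    rw [pow_add] at hcon h4
    push_cast at hcon
    nlinarith
  exact ⟨key, fun h => key 3 3 (by decide) le_rfl le_rfl (h 3 1 3 (by norm_num) (by norm_num) (by norm_num))⟩

end Pool.Agent.Results.MP_b34cfe_co.OddModuli
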